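import Pool.Agent.U26.SG.Stm
import Mathlib.Analysis.SpecialFunctions.Complex.Circle

/-! Project SG, package CPT: compactness of the directions. -/

set_option autoImplicit false
open MeasureTheory Filter Topology
open scoped ENNReal

namespace Pool.Agent.U934.SG

open Pool.Agent.U26.SG

noncomputable section

local instance : MeasurableSpace Circle := borel Circle
local instance : BorelSpace Circle := ⟨rfl⟩

theorem coe_cont : Continuous (fun z : Circle => (z : ℂ)) := by fun_prop

/-- the test function on the circle -/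
def gf (a : ℚ × ℚ) (z : Circle) : ℝ := Real.cos ((a.1 : ℝ) * (z : ℂ).re + (a.2 : ℝ) * (z : ℂ).im)

theorem gf_cont (a : ℚ × ℚ) : Continuous (gf a) := by
  unfold gf
  fun_prop

theorem exp_re (x : ℝ) : ((Circle.exp x : Circle) : ℂ).re = Real.cos x := by
  rw [Circle.coe_exp, Complex.exp_ofReal_mul_I_re]

theorem exp_im (x : ℝ) : ((Circle.exp x : Circle) : ℂ).im = Real.sin x := by
  rw [Circle.coe_exp, Complex.exp_ofReal_mul_I_im]

theorem co_map (ν : Measure ℝ) (a : ℚ × ℚ) : co ν a = ∫ z, gf a z ∂(ν.map Circle.exp) := by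
  rw [integral_map (by fun_prop) (gf_cont a).aestronglyMeasurable]
  simp only [co, gf, exp_re, exp_im]

theorem co_arg (p : Measure Circle) (a : ℚ × ℚ) :
    co (p.map (fun z : Circle => Complex.arg (z : ℂ))) a = ∫ z, gf a z ∂p := by
  have hm : Measurable (fun z : Circle => Complex.arg (z : ℂ)) :=
    Complex.measurable_arg.comp coe_cont.measurable
  rw [co, integral_map hm.aemeasurable (by fun_prop)]
  refine integral_congr_ae (Eventually.of_forall fun z => ?_)
  have h := Circle.exp_arg z
  have h1 := exp_re (Complex.arg (z : ℂ))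
  have h2 := exp_im (Complex.arg (z : ℂ))
  rw [h] at h1 h2
  simp only [gf, h1, h2]

theorem t_CPT : S_CPT := by
  intro ν m hν hm C hC
  let p : ℕ → ProbabilityMeasure Circle := fun n =>
    ⟨(ν n).map Circle.exp, Measure.isProbabilityMeasure_map (by fun_prop)⟩
  obtain ⟨q, hq⟩ := exists_clusterPt_of_compactSpace (map p atTop)
  have hq' : MapClusterPt q atTop p := hq
  have hco : ∀ n a, co (ν n) a = ∫ z, gf a z ∂(p n : Measure Circle) := fun n a => co_map (ν n) a
  have hcl : ∀ a, MapClusterPt (∫ z, gf a z ∂(q : Measure Circle)) atTop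
      (fun n => co (ν n) a) := by
    intro a
    have hb : Continuous (fun r : ProbabilityMeasure Circle => ∫ z, gf a z ∂(r : Measure Circle)) :=
      ProbabilityMeasure.continuous_integral_boundedContinuousFunction
        (BoundedContinuousFunction.mkOfCompact ⟨gf a, gf_cont a⟩)
    have := hq'.continuousAt_comp hb.continuousAt
    refine this.congrFun ?_
    exact Eventually.of_forall fun n => (hco n a).symm
  have hm0 : ∀ n, co (ν n) (0, 0) = 1 := by
    intro n
    have := hν n
    simp [co]
  have hmt : Tendsto m atTop (𝓝 (C (0, 0))) := by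
    refine (hC (0, 0)).congr fun n => ?_
    rw [hm0, mul_one]
  have hC0 : 0 ≤ C (0, 0) := ge_of_tendsto' hmt hm
  refine ⟨C (0, 0), (q : Measure Circle).map (fun z : Circle => Complex.arg (z : ℂ)), hC0,
    Measure.isProbabilityMeasure_map
      (Complex.measurable_arg.comp coe_cont.measurable).aemeasurable, ?_⟩
  intro a
  rw [co_arg]
  have hbd : ∀ n, |co (ν n) a| ≤ 1 := by
    intro n
    have := hν n
    rw [← Real.norm_eq_abs]
    have h := norm_integral_le_of_norm_le_const (μ := ν n) (C := 1)
      (f := fun α => Real.cos ((a.1 : ℝ) * Real.cos α + (a.2 : ℝ) * Real.sin α))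
      (Eventually.of_forall fun α => by rw [Real.norm_eq_abs]; exact Real.abs_cos_le_one _)
    simpa [co] using h
  rcases hC0.eq_or_lt with h0 | h0
  · rw [← h0, zero_mul]
    have h1 : Tendsto (fun n => m n * co (ν n) a) atTop (𝓝 0) := by
      rw [← h0] at hmt
      refine squeeze_zero_norm (fun n => ?_) hmt
      rw [norm_mul, Real.norm_eq_abs, Real.norm_eq_abs, abs_of_nonneg (hm n)]
      exact mul_le_of_le_one_right (hm n) (hbd n)
    exact tendsto_nhds_unique (hC a) h1
  · have h1 : Tendsto (fun n => (m n * co (ν n) a) / m n) atTop (𝓝 (C a / C (0, 0))) :=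
      (hC a).div hmt h0.ne'
    have h2 : Tendsto (fun n => co (ν n) a) atTop (𝓝 (C a / C (0, 0))) := by
      refine h1.congr' ?_
      filter_upwards [hmt.eventually_ne h0.ne'] with n hn
      rw [mul_div_cancel_left₀ _ hn]
    have h3 : (∫ z, gf a z ∂(q : Measure Circle)) = C a / C (0, 0) := by
      refine eq_of_nhds_neBot ?_
      have h4 := hcl a
      rw [mapClusterPt_def, ClusterPt] at h4
      exact h4.mono (inf_le_inf_left _ h2)
    rw [h3, mul_div_cancel₀ _ h0.ne']

end

end Pool.Agent.U934.SG
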